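import Pool.Agent.N929.EX.Stm

/-!
# Project EX, task CLS: class sizes are products of binomial coefficients
-/

set_option autoImplicit false
set_option linter.unusedVariables false

namespace Pool.Agent.N9.EX

open Pool.Agent.N929.EX Pool.Agent.H976R2 Pool.Agent.H976R2.Dir Finset
open scoped Classical

theorem OO_sub {L : Finset (ℤ × ℤ)} {s : Fin 3} {T : ℕ × ℕ} {w : List Dir} :
    OO L s T w ⊆ DD L s T w := by
  intro q hq
  unfold N929.EX.OO at hq
  unfold N929.EX.DD
  rw [mem_filter] at hq ⊢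
  obtain ⟨h1, k, h2⟩ := hq
  exact ⟨h1, k, Or.inr h2⟩

theorem TT_up (c j : Fin 3 → ℕ) (s : Fin 3) :
    TT c (Function.update j s (j s + 1)) = up s (TT c j) := by
  unfold N929.EX.TT up
  fin_cases s <;> simp [Function.update] <;> ring_nf <;> simp

theorem len_up (c j : Fin 3 → ℕ) (s : Fin 3) :
    len c (Function.update j s (j s + 1)) = len c j + 2 := by
  unfold N929.EX.len
  fin_cases s <;> simp [Function.update] <;> ring

theorem TT_le (c j : Fin 3 → ℕ) : (TT c j).1 ≤ (TT c j).2 := by
  unfold N929.EX.TT; simp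

theorem TT_len (c j : Fin 3 → ℕ) : (TT c j).2 ≤ len c j := by
  unfold N929.EX.TT N929.EX.len; simp

theorem step (h : S_TOG) {L : Finset (ℤ × ℤ)} (hL : CF L) (y z : ℤ × ℤ)
    (D : Fin 3 → Finset (ℤ × ℤ)) (c j : Fin 3 → ℕ) (s : Fin 3) :
    (HH L y z D c j).card * ((D s).card - j s) =
      (HH L y z D c (Function.update j s (j s + 1))).card * (j s + 1) := by
  obtain ⟨f, g, hf, hg⟩ := h L hL
  set T := TT c j with hT
  set j' := Function.update j s (j s + 1) with hj'
  have hT' : TT c j' = up s T := TT_up c j s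
  have hlen : len c j' = len c j + 2 := len_up c j s
  have hjs : j' s = j s + 1 := by rw [hj', Function.update_self]
  have hjs' : ∀ s', s' ≠ s → j' s' = j s' := by
    intro s' hs'; rw [hj', Function.update_of_ne hs']
  have hmem : ∀ w, w ∈ HH L y z D c j ↔ w ∈ SW (len c j) ∧ Lip.PP w T.1 = y ∧
      Lip.PP w T.2 = z ∧ (∀ s, DD L s T w = D s) ∧ ∀ s, (OO L s T w).card = j s := by
    intro w
    unfold HH
    rw [mem_filter]
  have hmem' : ∀ w, w ∈ HH L y z D c j' ↔ w ∈ SW (len c j + 2) ∧ Lip.PP w (up s T).1 = y ∧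
      Lip.PP w (up s T).2 = z ∧ (∀ s', DD L s' (up s T) w = D s') ∧
        ∀ s', (OO L s' (up s T) w).card = j' s' := by
    intro w
    unfold HH
    rw [mem_filter, hT', hlen]
  have e1 : (HH L y z D c j).card * ((D s).card - j s) =
      ((HH L y z D c j).sigma (fun w => D s \ OO L s T w)).card := by
    rw [card_sigma, Finset.sum_const_nat (m := (D s).card - j s)]
    intro w hw
    obtain ⟨-, -, -, h4, h5⟩ := (hmem w).1 hw
    rw [card_sdiff_of_subset, h5 s]
    rw [← h4 s]
    exact OO_sub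
  have e2 : (HH L y z D c j').card * (j s + 1) =
      ((HH L y z D c j').sigma (fun w => OO L s (up s T) w)).card := by
    rw [card_sigma, Finset.sum_const_nat (m := j s + 1)]
    intro w hw
    obtain ⟨-, -, -, h4, h5⟩ := (hmem' w).1 hw
    rw [h5 s, hjs]
  rw [e1, e2]
  refine Finset.card_nbij' (fun x => ⟨f x.1 x.2, x.2⟩) (fun x => ⟨g x.1 x.2, x.2⟩) ?_ ?_ ?_ ?_
  · rintro ⟨w, p⟩ hx
    simp only [coe_sigma, Set.mem_sigma_iff, mem_coe, mem_sdiff] at hx ⊢
    obtain ⟨hw, hp1, hp2⟩ := hx
    obtain ⟨h1, h2, h3, h4, h5⟩ := (hmem w).1 hw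
    obtain ⟨k1, k2, k3⟩ := hf s T (len c j) w p (TT_le c j) (TT_len c j) h1 (by rw [h4 s]; exact hp1)
      hp2
    refine ⟨(hmem' _).2 ⟨k1, ?_, ?_, ?_, ?_⟩, ?_⟩
    · rw [k2.m1, h2]
    · rw [k2.m2, h3]
    · intro s'
      rw [k2.dd s', h4 s']
    · intro s'
      by_cases hs : s' = s
      · subst hs
        rw [k2.os, card_insert_of_notMem hp2, h5, hjs]
      · rw [k2.oo s' hs, h5, hjs' s' hs]
    · rw [k2.os]
      exact mem_insert_self _ _
  · rintro ⟨w, p⟩ hx
    simp only [coe_sigma, Set.mem_sigma_iff, mem_coe, mem_sdiff] at hx ⊢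
    obtain ⟨hw, hp⟩ := hx
    obtain ⟨h1, h2, h3, h4, h5⟩ := (hmem' w).1 hw
    obtain ⟨k1, k2, k3⟩ := hg s T (len c j) w p (TT_le c j) (TT_len c j) h1 hp
    have hD : ∀ s', DD L s' T (g w p) = D s' := by
      intro s'
      rw [← k2.dd s', h4 s']
    refine ⟨(hmem _).2 ⟨k1, ?_, ?_, hD, ?_⟩, ?_, ?_⟩
    · rw [← k2.m1, h2]
    · rw [← k2.m2, h3]
    · intro s'
      by_cases hs : s' = s
      · subst hs
        have h6 := h5 s'
        rw [k2.os, card_insert_of_notMem k2.nm, hjs] at h6
        omega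
      · rw [← k2.oo s' hs, h5, hjs' s' hs]
    · rw [← hD s]
      exact k2.mem
    · exact k2.nm
  · rintro ⟨w, p⟩ hx
    simp only [coe_sigma, Set.mem_sigma_iff, mem_coe, mem_sdiff] at hx ⊢
    obtain ⟨hw, hp1, hp2⟩ := hx
    obtain ⟨h1, h2, h3, h4, h5⟩ := (hmem w).1 hw
    obtain ⟨k1, k2, k3⟩ := hf s T (len c j) w p (TT_le c j) (TT_len c j) h1 (by rw [h4 s]; exact hp1)
      hp2
    rw [k3]
  · rintro ⟨w, p⟩ hx
    simp only [coe_sigma, Set.mem_sigma_iff, mem_coe, mem_sdiff] at hx ⊢
    obtain ⟨hw, hp⟩ := hx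
    obtain ⟨h1, h2, h3, h4, h5⟩ := (hmem' w).1 hw
    obtain ⟨k1, k2, k3⟩ := hg s T (len c j) w p (TT_le c j) (TT_len c j) h1 hp
    rw [k3]

theorem one_coord (h : S_TOG) {L : Finset (ℤ × ℤ)} (hL : CF L) (y z : ℤ × ℤ)
    (D : Fin 3 → Finset (ℤ × ℤ)) (c j : Fin 3 → ℕ) (s : Fin 3) (k : ℕ) :
    (HH L y z D c (Function.update j s k)).card =
      ((D s).card).choose k * (HH L y z D c (Function.update j s 0)).card := by
  induction k with
  | zero => simp
  | succ k ih =>
    have h1 := step h hL y z D c (Function.update j s k) s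
    rw [Function.update_self, Function.update_idem, ih] at h1
    have h2 := Nat.choose_succ_right_eq (D s).card k
    apply Nat.eq_of_mul_eq_mul_right (Nat.succ_pos k)
    rw [Nat.succ_eq_add_one]
    calc (HH L y z D c (Function.update j s (k + 1))).card * (k + 1)
        = ((D s).card).choose k * (HH L y z D c (Function.update j s 0)).card *
            ((D s).card - k) := h1.symm
      _ = (((D s).card).choose k * ((D s).card - k)) *
            (HH L y z D c (Function.update j s 0)).card := by ring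
      _ = (((D s).card).choose (k + 1) * (k + 1)) *
            (HH L y z D c (Function.update j s 0)).card := by rw [h2]
      _ = _ := by ring

theorem cls (h : S_TOG) : S_CLS := by
  intro L hL y z D c j
  have h0 := one_coord h hL y z D c j 0 (j 0)
  rw [Function.update_eq_self] at h0
  have h1 := one_coord h hL y z D c (Function.update j 0 0) 1 (j 1)
  have e1 : Function.update (Function.update j 0 0) 1 (j 1) = Function.update j 0 0 := by
    funext t; fin_cases t <;> simp [Function.update]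
  rw [e1] at h1
  have h2 := one_coord h hL y z D c (Function.update (Function.update j 0 0) 1 0) 2 (j 2)
  have e2 : Function.update (Function.update (Function.update j 0 0) 1 0) 2 (j 2) =
      Function.update (Function.update j 0 0) 1 0 := by
    funext t; fin_cases t <;> simp [Function.update]
  have e3 : Function.update (Function.update (Function.update j 0 0) 1 0) 2 0 =
      (fun _ => 0 : Fin 3 → ℕ) := by
    funext t; fin_cases t <;> simp [Function.update]
  rw [e2, e3] at h2
  rw [h0, h1, h2, Fin.prod_univ_three]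
  ring

end Pool.Agent.N9.EX
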